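import Pool.Agent.H8.TD.Targets
import Pool.Agent.H8.ZA.KEY
import Pool.Agent.H14.TD.EXT

/-!
# Zariski dense orbits in dimension three: row KIN, the height inequality
-/

set_option autoImplicit false

open MvPolynomial
open Pool.Agent.H12.ZD (pmap v O Res DenseOrbit NoInv)
open Pool.Agent.H18.HIT
open Pool.Agent.H8.ZA (HFam Const NA sz)
open Pool.Agent.H8.TD

namespace Pool.Agent.H64.TD

theorem transc_of_dg {k K : Type} [Field k] [Field K] [Algebra k K] (g x y : K)
    (htr : Algebra.trdeg k K = 3) (h : 1 ≤ dg k ({g, x, y} : Set K)) : Transcendental k g := by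
  intro hg
  have hfd : FiniteDimensional (IntermediateField.adjoin k ({g, x, y} : Set K)) K :=
    FiniteDimensional.of_finrank_pos h
  have hr : Set.range ![g, x, y] = ({g, x, y} : Set K) := by
    ext z
    simp only [Set.mem_range, Set.mem_insert_iff, Set.mem_singleton_iff]
    constructor
    · rintro ⟨i, rfl⟩
      fin_cases i <;> simp
    · rintro (rfl | rfl | rfl)
      · exact ⟨0, rfl⟩
      · exact ⟨1, rfl⟩
      · exact ⟨2, rfl⟩
  have halg : Algebra.IsAlgebraic (IntermediateField.adjoin k (Set.range ![g, x, y])) K := by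
    rw [hr]
    exact Algebra.IsAlgebraic.of_finite _ _
  have h1 := Pool.Agent.H14.TD.alg_trans ({x, y} : Set K) ![g, x, y] halg (fun i => by
    fin_cases i
    · exact hg.extendScalars (S := Algebra.adjoin k ({x, y} : Set K))
        (FaithfulSMul.algebraMap_injective k _)
    · exact isAlgebraic_algebraMap
        (⟨x, Algebra.subset_adjoin (by simp)⟩ : Algebra.adjoin k ({x, y} : Set K))
    · exact isAlgebraic_algebraMap
        (⟨y, Algebra.subset_adjoin (by simp)⟩ : Algebra.adjoin k ({x, y} : Set K)))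
  have h2 := Algebra.IsAlgebraic.trdeg_le_cardinalMk k ({x, y} : Set K)
  have h3 := h2.trans Cardinal.mk_insert_le
  rw [htr, Cardinal.mk_singleton] at h3
  have h4 : ((3 : ℕ) : Cardinal) ≤ ((2 : ℕ) : Cardinal) := by
    push_cast
    calc (3 : Cardinal) ≤ 1 + 1 := h3
      _ = 2 := one_add_one_eq_two
  have h5 : (3 : ℕ) ≤ 2 := by exact_mod_cast h4
  omega

section span

variable {k R K : Type} [Field k] [CommRing R] [Field K] [Algebra k R] [Algebra R K]
  [Algebra k K] [IsScalarTower k R K] {a b : ℕ} (A : Fin a → R) (B : Fin b → R)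

theorem gens_finite (n l : ℕ) : ({q : R | ∃ (α : Fin a → ℕ) (β : Fin b → ℕ), ∑ i, α i ≤ n ∧
    ∑ i, β i ≤ l ∧ q = (∏ i, A i ^ α i) * ∏ i, B i ^ β i}).Finite := by
  have h1 : (Set.Iic (fun _ : Fin a => n)).Finite := Set.finite_Iic _
  have h2 : (Set.Iic (fun _ : Fin b => l)).Finite := Set.finite_Iic _
  refine ((h1.prod h2).image (fun p => (∏ i, A i ^ p.1 i) * ∏ i, B i ^ p.2 i)).subset ?_
  rintro q ⟨α, β, hα, hβ, rfl⟩
  refine ⟨(α, β), ⟨?_, ?_⟩, rfl⟩
  · intro i
    exact (Finset.single_le_sum (f := α) (fun _ _ => Nat.zero_le _) (Finset.mem_univ i)).trans hα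
  · intro i
    exact (Finset.single_le_sum (f := β) (fun _ _ => Nat.zero_le _) (Finset.mem_univ i)).trans hβ

theorem Wsp_finite (n l : ℕ) : Module.Finite k (Wsp k A B n l) :=
  Module.Finite.span_of_finite k (gens_finite A B n l)

theorem image_gens (n l : ℕ) :
    algebraMap R K '' {q : R | ∃ (α : Fin a → ℕ) (β : Fin b → ℕ), ∑ i, α i ≤ n ∧
      ∑ i, β i ≤ l ∧ q = (∏ i, A i ^ α i) * ∏ i, B i ^ β i} =
    {q : K | ∃ (α : Fin a → ℕ) (β : Fin b → ℕ), ∑ i, α i ≤ n ∧
      ∑ i, β i ≤ l ∧ q = (∏ i, (algebraMap R K (A i)) ^ α i) *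
        ∏ i, (algebraMap R K (B i)) ^ β i} := by
  ext z
  constructor
  · rintro ⟨q, ⟨α, β, hα, hβ, rfl⟩, rfl⟩
    refine ⟨α, β, hα, hβ, ?_⟩
    simp only [map_mul, map_prod, map_pow]
  · rintro ⟨α, β, hα, hβ, rfl⟩
    refine ⟨_, ⟨α, β, hα, hβ, rfl⟩, ?_⟩
    simp only [map_mul, map_prod, map_pow]

theorem map_Wsp (n l : ℕ) :
    Submodule.map (IsScalarTower.toAlgHom k R K).toLinearMap (Wsp k A B n l) =
      Wsp k (fun i => algebraMap R K (A i)) (fun i => algebraMap R K (B i)) n l := by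
  unfold Wsp
  rw [Submodule.map_span]
  congr 1
  exact image_gens A B n l

theorem finrank_Wsp (hinj : Function.Injective (algebraMap R K)) (n l : ℕ) :
    Module.finrank k (Wsp k A B n l) = Module.finrank k
      (Wsp k (fun i => algebraMap R K (A i)) (fun i => algebraMap R K (B i)) n l) := by
  rw [← map_Wsp (k := k) A B n l]
  exact (Submodule.equivMapOfInjective (IsScalarTower.toAlgHom k R K).toLinearMap hinj
    (Wsp k A B n l)).finrank_eq

theorem span_Wsp (E : IntermediateField k K) (n l : ℕ) :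
    Submodule.span E (algebraMap R K '' (Wsp k A B n l : Set R)) =
      Wsp E (fun i => algebraMap R K (A i)) (fun i => algebraMap R K (B i)) n l := by
  apply le_antisymm
  · rw [Submodule.span_le]
    rintro _ ⟨q, hq, rfl⟩
    have h1 : algebraMap R K q ∈
        Wsp k (fun i => algebraMap R K (A i)) (fun i => algebraMap R K (B i)) n l := by
      rw [← map_Wsp (k := k) A B n l]
      exact ⟨q, hq, rfl⟩
    unfold Wsp at h1 ⊢
    exact Submodule.span_subset_span k E _ h1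
  · unfold Wsp
    rw [Submodule.span_le, ← image_gens A B n l]
    rintro _ ⟨q, hq, rfl⟩
    exact Submodule.subset_span ⟨q, Submodule.subset_span hq, rfl⟩

end span

theorem sz_single {k : Type} [CommRing k] (w : AbsoluteValue k ℝ) (c : k) :
    sz w ![c, 0, 0] = max 1 (w c) := by
  simp only [sz, Matrix.cons_val_zero, Matrix.cons_val_one, Matrix.cons_val, map_zero]
  rw [max_self, max_eq_left (w.nonneg c)]

theorem pf_KIN (hSRB : T_SRB) (hDLB : T_DLB) (hAXF : T_AXF) (hNUM : Pool.Agent.H8.TD.T_NUM) (hGNX : T_GNX)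
    (hWBX : T_WBX) : T_KIN := by
  classical
  intro R K _ _ _ _ _ _ _ A B g Q Q' M s t t' hinj htr htop hQ hM hQs hQ' hMle hex
  -- the maximum
  obtain ⟨q, hq1, hqQ, hqmax, u, u', huu⟩ : ∃ q : ℕ, 1 ≤ q ∧ q ≤ Q' ∧
      (∀ u u' : Fin 3 → Qb, dg Qb {algebraMap R K g, lc u (fun i => algebraMap R K (B i)),
        lc u' (fun i => algebraMap R K (B i))} ≤ q) ∧
      ∃ u u' : Fin 3 → Qb, dg Qb {algebraMap R K g, lc u (fun i => algebraMap R K (B i)),
        lc u' (fun i => algebraMap R K (B i))} = q := by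
    set P : ℕ → Prop := fun m => ∃ u u' : Fin 3 → Qb, dg Qb {algebraMap R K g,
      lc u (fun i => algebraMap R K (B i)), lc u' (fun i => algebraMap R K (B i))} = m with hP
    obtain ⟨u, u', hu1⟩ := hex
    refine ⟨Nat.findGreatest P Q', ?_, Nat.findGreatest_le Q', ?_, ?_⟩
    · exact hu1.trans (Nat.le_findGreatest (hQ' u u') ⟨u, u', rfl⟩)
    · intro w w'
      exact Nat.le_findGreatest (hQ' w w') ⟨w, w', rfl⟩
    · exact Nat.findGreatest_spec (P := P) (hQ' u u') ⟨u, u', rfl⟩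
  have htg : Transcendental Qb (algebraMap R K g) :=
    transc_of_dg _ _ _ htr (huu ▸ hq1)
  have htgR : Transcendental Qb g := (transcendental_algebraMap_iff hinj).1 htg
  -- the parameters
  obtain ⟨n₀, hn₀⟩ := hDLB Qb K 3 3 (fun i => algebraMap R K (A i))
    (fun i => algebraMap R K (B i)) s t t' htr htop (hQ.trans hQs)
  obtain ⟨t₀, n, l, ht₀, hn, hl, hnum⟩ := hNUM Q q M n₀ hQ hq1 hM
  have hdl := hn₀ n l
  have hsr := hSRB Qb K 3 3 (fun i => algebraMap R K (A i))
    (fun i => algebraMap R K (B i)) (algebraMap R K g) M q (n + n₀) (l + n₀)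
    (18 * M * t₀ + 1) u u' htr htop hq1 huu hqmax hMle (by
      rw [hn, hl]
      nlinarith)
  -- the auxiliary section
  have hfinW : Module.Finite Qb (Wsp Qb A B (n + n₀) (l + n₀)) := Wsp_finite A B _ _
  obtain ⟨S, S', hS'0, hSS, hSW⟩ := hAXF Qb R K (Wsp Qb A B (n + n₀) (l + n₀)) g (Q * t₀)
    ((18 * M * t₀ + 1) * ((n + n₀) * M + (l + n₀ + 1) * q)) hinj htgR hfinW
    (by rw [span_Wsp]; exact hsr) (by
      rw [finrank_Wsp (K := K) A B hinj]
      refine lt_of_lt_of_le ?_ hdl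
      calc Q * t₀ * ((18 * M * t₀ + 1) * ((n + n₀) * M + (l + n₀ + 1) * q))
          = Q * t₀ * ((18 * M * t₀ + 1) * (9 * q * t₀ * M + (9 * M * t₀ + 1) * q)) := by
            rw [hn, hl]
        _ < Q * ((n + 1) * ((l + 1) * (l + 2) / 2)) := hnum
        _ ≤ _ := Nat.mul_le_mul_right _ hQs)
  obtain ⟨γ₀, hγ₀⟩ := ne_zero_iff.1 hS'0
  refine ⟨coeff γ₀ S', hγ₀, fun K' F => ?_⟩
  -- constants
  choose cG hcG0 hcG1 hcGna hcG using fun i =>
    hGNX Qb (Q * t₀) S'.totalDegree (F.abv i)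
  choose cW hcW hcWb using fun γ => hWBX R A B (n + n₀) (l + n₀) (coeff γ S) (hSW γ) K' F
  set CW : F.ι → ℝ := fun i => ∏ γ ∈ S.support, cW γ i with hCW
  have hCWc : Const F CW := Pool.Agent.H8.ZA.Const.prod _ _ fun γ _ => hcW γ
  have hGc : Const F fun i => (cG i)⁻¹ := by
    refine ⟨fun i => (one_le_inv₀ (hcG0 i)).2 (hcG1 i), ?_⟩
    refine (F.arch.finite_toSet).subset fun i hi => ?_
    by_contra hcon
    exact hi (by rw [hcGna i (F.na i hcon), inv_one])
  set CC : F.ι → ℝ := fun i => CW i * (cG i)⁻¹ with hCC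
  have hCCc : Const F CC := hCWc.mul hGc
  refine ⟨(∑ᶠ i, Real.log (CC i)) / t₀, fun ev hbK hb0 => ?_⟩
  -- the local inequality
  have hloc : ∀ i, cG i * max 1 (F.abv i (ev g)) ^ (Q * t₀) *
      F.abv i (ev (coeff γ₀ S')) ≤
      CW i * (sz (F.abv i) (fun j => ev (A j)) ^ (n + n₀) *
        sz (F.abv i) (fun j => ev (B j)) ^ (l + n₀)) := by
    intro i
    have hms : map (ev : R →+* Qb) S =
        (∏ j, (X j - C (ev g))) * map (ev : R →+* Qb) S' := by
      rw [hSS, map_mul, map_prod]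
      congr 1
      apply Finset.prod_congr rfl
      intro j _
      rw [map_sub, map_X, map_C]
      rfl
    have hdeg : (map (ev : R →+* Qb) S').totalDegree ≤ S'.totalDegree :=
      Pool.Agent.H8.ZA.totalDegree_map_le _ _
    obtain ⟨γ', hγ'⟩ := hcG i (ev g) (map (ev : R →+* Qb) S') hdeg γ₀
    rw [← hms, coeff_map, coeff_map] at hγ'
    refine hγ'.trans ?_
    have hR : 0 ≤ sz (F.abv i) (fun j => ev (A j)) ^ (n + n₀) *
        sz (F.abv i) (fun j => ev (B j)) ^ (l + n₀) :=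
      mul_nonneg (pow_nonneg (Pool.Agent.H8.ZA.sz_pos _ _).le _)
        (pow_nonneg (Pool.Agent.H8.ZA.sz_pos _ _).le _)
    by_cases hsup : γ' ∈ S.support
    · refine (hcWb γ' i ev).trans ?_
      exact mul_le_mul_of_nonneg_right
        (Pool.Agent.H8.ZA.le_prod_const _ _ (fun γ _ => hcW γ) hsup i) hR
    · rw [notMem_support_iff.1 hsup, map_zero, map_zero]
      exact mul_nonneg (hCWc.pos i).le hR
  have hloc2 : ∀ i, ((Q * t₀ : ℕ) : ℝ) * Real.log (sz (F.abv i) ![ev g, 0, 0]) +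
      Real.log (F.abv i (ev (coeff γ₀ S'))) ≤
      ((n + n₀ : ℕ) : ℝ) * Real.log (sz (F.abv i) (fun j => ev (A j))) +
      ((l + n₀ : ℕ) : ℝ) * Real.log (sz (F.abv i) (fun j => ev (B j))) +
        Real.log (CC i) := by
    intro i
    have hb : 0 < F.abv i (ev (coeff γ₀ S')) := (F.abv i).pos hb0
    have hsA := Pool.Agent.H8.ZA.sz_pos (F.abv i) (fun j => ev (A j))
    have hsB := Pool.Agent.H8.ZA.sz_pos (F.abv i) (fun j => ev (B j))
    have hmx : (0 : ℝ) < max 1 (F.abv i (ev g)) := lt_of_lt_of_le one_pos (le_max_left _ _)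
    have h2 := Real.log_le_log (mul_pos (mul_pos (hcG0 i) (pow_pos hmx _)) hb) (hloc i)
    rw [Real.log_mul (mul_pos (hcG0 i) (pow_pos hmx _)).ne' hb.ne',
      Real.log_mul (hcG0 i).ne' (pow_pos hmx _).ne', Real.log_pow,
      Real.log_mul (hCWc.pos i).ne' (mul_pos (pow_pos hsA _) (pow_pos hsB _)).ne',
      Real.log_mul (pow_pos hsA _).ne' (pow_pos hsB _).ne', Real.log_pow,
      Real.log_pow] at h2
    have h3 : Real.log (CC i) = Real.log (CW i) - Real.log (cG i) := by
      simp only [hCC]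
      rw [Real.log_mul (hCWc.pos i).ne' (inv_pos.2 (hcG0 i)).ne', Real.log_inv]
      ring
    rw [h3, sz_single]
    linarith
  have hfin := Pool.Agent.H8.ZA.ht_compare F (x := ![ev g, 0, 0])
    (y := fun j => ev (A j)) (z := fun j => ev (B j))
    (ev (coeff γ₀ S')) hbK hb0 CC hCCc hloc2
  have htpos : (0 : ℝ) < t₀ := by exact_mod_cast ht₀
  have hqQR : (q : ℝ) ≤ Q' := by exact_mod_cast hqQ
  have hA0 := Pool.Agent.H8.ZA.ht_nonneg F (fun j => ev (A j))
  have h5 : (t₀ : ℝ) * (Q * F.ht ![ev g, 0, 0]) ≤ t₀ * (9 * q * F.ht (fun j => ev (A j)) +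
      9 * M * F.ht (fun j => ev (B j)) + (∑ᶠ i, Real.log (CC i)) / t₀) := by
    have e1 : (t₀ : ℝ) * ((∑ᶠ i, Real.log (CC i)) / t₀) = ∑ᶠ i, Real.log (CC i) := by
      field_simp
    rw [hn, hl] at hfin
    push_cast at hfin
    calc (t₀ : ℝ) * (Q * F.ht ![ev g, 0, 0]) = Q * t₀ * F.ht ![ev g, 0, 0] := by ring
      _ ≤ _ := hfin
      _ = _ := by
        rw [mul_add, e1]
        ring
  have h6 := le_of_mul_le_mul_left h5 htpos
  have h7 : 9 * (q : ℝ) * F.ht (fun j => ev (A j)) ≤ 9 * Q' * F.ht (fun j => ev (A j)) :=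
    mul_le_mul_of_nonneg_right (by linarith) hA0
  linarith

end Pool.Agent.H64.TD
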